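import Mathlib

set_option autoImplicit false

namespace Pool.Agent.TH784.SD

open Finset Polynomial

theorem esymm_zero {p : ℕ} [Fact p.Prime] {ι : Type*} [Fintype ι] [DecidableEq ι]
    (f : ι → ZMod p) (h : ∀ j, 1 ≤ j → 2 * j ≤ p - 1 → ∑ i, f i ^ j = 0)
    (k : ℕ) (hk : 1 ≤ k) (hk' : 2 * k ≤ p - 1) :
    ((univ : Finset ι).val.map f).esymm k = 0 := by
  have hp := (Fact.out : p.Prime)
  have hN := congrArg (MvPolynomial.aeval f) (MvPolynomial.mul_esymm_eq_sum ι (ZMod p) k)
  rw [map_mul, map_mul, map_sum, MvPolynomial.aeval_esymm_eq_multiset_esymm] at hN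
  have h0 : ∑ a ∈ (antidiagonal k).filter (fun a => a.1 < k), (MvPolynomial.aeval f)
      ((-1) ^ a.1 * MvPolynomial.esymm ι (ZMod p) a.1 * MvPolynomial.psum ι (ZMod p) a.2) = 0 := by
    apply Finset.sum_eq_zero
    intro a ha
    rw [mem_filter, HasAntidiagonal.mem_antidiagonal] at ha
    rw [map_mul]
    have : (MvPolynomial.aeval f) (MvPolynomial.psum ι (ZMod p) a.2) = 0 := by
      rw [MvPolynomial.psum, map_sum]
      simp only [map_pow, MvPolynomial.aeval_X]
      exact h a.2 (by omega) (by omega)
    rw [this, mul_zero]
  rw [h0, mul_zero, map_natCast] at hN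
  rcases mul_eq_zero.mp hN with h1 | h1
  · exfalso
    rw [ZMod.natCast_eq_zero_iff] at h1
    have := Nat.le_of_dvd (by omega) h1
    omega
  · exact h1

theorem lac {p : ℕ} [Fact p.Prime] (hp2 : p ≠ 2) {ι : Type*} [Fintype ι] [DecidableEq ι]
    (hι : Fintype.card ι = p) (f : ι → ZMod p)
    (h : ∀ j, 1 ≤ j → 2 * j ≤ p - 1 → ∑ i, f i ^ j = 0) :
    Function.Injective f ∨ ∃ c, ∀ i, f i = c := by
  have hp := (Fact.out : p.Prime)
  have hp3 : 3 ≤ p := by
    have := hp.two_le
    omega
  have hodd : p % 2 = 1 := by
    rcases hp.eq_two_or_odd with h2 | h2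
    · exact absurd h2 hp2
    · exact h2
  set s : Multiset (ZMod p) := (univ : Finset ι).val.map f with hs
  have hsc : s.card = p := by
    rw [hs, Multiset.card_map]
    exact hι
  set R : (ZMod p)[X] := (s.map (fun t => X - C t)).prod with hR
  have hroots : R.roots = s := Polynomial.roots_multiset_prod_X_sub_C s
  have hmon : R.Monic := monic_multiset_prod_of_monic _ _ (fun t _ => monic_X_sub_C t)
  have hdeg : R.natDegree = p := by
    rw [hR, natDegree_multiset_prod_X_sub_C_eq_card, hsc]
  set g : (ZMod p)[X] := R - X ^ p with hg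
  have hgc : ∀ e, (p - 1) / 2 < e → g.coeff e = 0 := by
    intro e he
    rw [hg, coeff_sub, coeff_X_pow]
    rcases lt_trichotomy e p with h1 | h1 | h1
    · rw [if_neg (by omega), sub_zero, hR, Multiset.prod_X_sub_C_coeff s (by omega), hsc,
        esymm_zero f h (p - e) (by omega) (by omega), mul_zero]
    · subst h1
      rw [if_pos rfl]
      have : R.coeff R.natDegree = 1 := hmon
      rw [hdeg] at this
      rw [this, sub_self]
    · rw [if_neg (by omega), sub_zero]
      exact coeff_eq_zero_of_natDegree_lt (by omega)
  have hgd : g.natDegree ≤ (p - 1) / 2 := by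
    rw [natDegree_le_iff_coeff_eq_zero]
    exact hgc
  have hRg : R = X ^ p + g := by rw [hg]; ring
  have hder : derivative R = derivative g := by
    rw [hRg, derivative_add, derivative_X_pow]
    simp
  set Q : (ZMod p)[X] := (g + X) * derivative g with hQ
  have hQ0 : Q = 0 := by
    by_contra hne
    have hle : s ≤ Q.roots := by
      rw [← hroots, Multiset.le_iff_count]
      intro r
      rw [count_roots, count_roots]
      rcases Nat.eq_zero_or_pos (rootMultiplicity r R) with h0 | h0
      · omega
      · rw [le_rootMultiplicity_iff hne]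
        have h1 : (X - C r) ^ (rootMultiplicity r R - 1) ∣ derivative g := by
          rw [← hder]
          have h2 := pow_rootMultiplicity_dvd R r
          obtain ⟨q, hq⟩ := h2
          obtain ⟨m, hm⟩ : ∃ m, rootMultiplicity r R = m + 1 := ⟨rootMultiplicity r R - 1, by omega⟩
          rw [hm] at hq ⊢
          rw [hq]
          simp only [Nat.add_sub_cancel, derivative_mul, derivative_X_sub_C_pow]
          refine dvd_add ?_ ?_
          · refine Dvd.dvd.mul_right ?_ _
            simp
          · refine Dvd.dvd.mul_right ?_ _
            exact pow_dvd_pow _ (by omega)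
        have h2 : (X - C r) ∣ g + X := by
          rw [dvd_iff_isRoot, IsRoot.def]
          have h3 : R.eval r = 0 := (rootMultiplicity_pos hmon.ne_zero).mp h0
          have h4 : r ^ p = r := ZMod.pow_card r
          rw [hg]
          simp [h3, h4]
        have h3 : (X - C r) ^ rootMultiplicity r R =
            (X - C r) * (X - C r) ^ (rootMultiplicity r R - 1) := by
          obtain ⟨m, hm⟩ : ∃ m, rootMultiplicity r R = m + 1 := ⟨rootMultiplicity r R - 1, by omega⟩
          rw [hm, Nat.add_sub_cancel, pow_succ']
        rw [h3]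
        exact mul_dvd_mul h2 h1
    have h1 := Multiset.card_le_card hle
    have h2 := Polynomial.card_roots' Q
    have h3 : Q.natDegree ≤ (p - 1) / 2 + ((p - 1) / 2 - 1) := by
      refine le_trans natDegree_mul_le ?_
      have h4 : (g + X).natDegree ≤ (p - 1) / 2 := by
        refine le_trans (natDegree_add_le _ _) ?_
        rw [natDegree_X]
        exact max_le hgd (by omega)
      have h5 : (derivative g).natDegree ≤ (p - 1) / 2 - 1 :=
        le_trans (natDegree_derivative_le g) (by omega)
      omega
    omega
  rcases mul_eq_zero.mp hQ0 with h1 | h1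
  · left
    have h2 : R = X ^ p - X := by
      rw [hRg]
      linear_combination h1
    have h3 : s = (univ : Finset (ZMod p)).val := by
      rw [← hroots, h2]
      have h4 := FiniteField.roots_X_pow_card_sub_X (ZMod p)
      rwa [ZMod.card p] at h4
    have h4 : s.Nodup := by
      rw [h3]
      exact univ.nodup
    intro x y hxy
    exact Multiset.inj_on_of_nodup_map h4 x (mem_univ_val x) y (mem_univ_val y) hxy
  · right
    have h2 : ∀ e, 1 ≤ e → g.coeff e = 0 := by
      intro e he
      rcases lt_or_ge ((p - 1) / 2) e with h3 | h3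
      · exact hgc e h3
      · have h4 : (derivative g).coeff (e - 1) = 0 := by rw [h1, coeff_zero]
        rw [coeff_derivative] at h4
        have h5 : e - 1 + 1 = e := by omega
        rw [h5] at h4
        rcases mul_eq_zero.mp h4 with h6 | h6
        · exact h6
        · exfalso
          have h7 : ((e : ℕ) : ZMod p) = 0 := by
            have h8 : (((e - 1) + 1 : ℕ) : ZMod p) = 0 := by
              push_cast
              exact h6
            rwa [h5] at h8
          rw [ZMod.natCast_eq_zero_iff] at h7
          have := Nat.le_of_dvd (by omega) h7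
          omega
    have h3 : g = C (g.coeff 0) := by
      ext e
      rw [coeff_C]
      split_ifs with h4
      · rw [h4]
      · exact h2 e (by omega)
    refine ⟨- g.coeff 0, fun i => ?_⟩
    have h4 : f i ∈ R.roots := by
      rw [hroots, hs]
      exact Multiset.mem_map_of_mem f (mem_univ_val i)
    have h5 : R.eval (f i) = 0 := by
      rw [mem_roots hmon.ne_zero] at h4
      exact h4
    rw [hRg, h3] at h5
    simp only [eval_add, eval_pow, eval_X, eval_C, ZMod.pow_card] at h5
    linear_combination h5

end Pool.Agent.TH784.SD
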