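import Mathlib
import Pool.Agent.TH784.SD.Lac

set_option autoImplicit false

namespace Pool.Agent.TH784.SD

open Finset Polynomial

/-- the value at `x` of the linear form with coefficients `v` -/
def lf {p : ℕ} (v x : ZMod p × ZMod p) : ZMod p := v.1 * x.1 + v.2 * x.2

theorem lf_sub {p : ℕ} (v x y : ZMod p × ZMod p) : lf v (x - y) = lf v x - lf v y := by
  simp only [lf, Prod.fst_sub, Prod.snd_sub]
  ring

theorem lf_zero {p : ℕ} (v : ZMod p × ZMod p) : lf v 0 = 0 := by
  simp [lf]

/-- zero and the points that are not differences of two elements of `S` -/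
def TT {p : ℕ} [NeZero p] (S : Finset (ZMod p × ZMod p)) : Finset (ZMod p × ZMod p) :=
  univ.filter fun x => x = 0 ∨ ∀ a ∈ S, ∀ b ∈ S, a - b ≠ x

theorem mem_TT {p : ℕ} [NeZero p] (S : Finset (ZMod p × ZMod p)) (x : ZMod p × ZMod p) :
    x ∈ TT S ↔ (x = 0 ∨ ∀ a ∈ S, ∀ b ∈ S, a - b ≠ x) := by
  simp [TT]

/-- Sidon sets -/
def Sidon {p : ℕ} (S : Finset (ZMod p × ZMod p)) : Prop :=
  ∀ a ∈ S, ∀ b ∈ S, ∀ c ∈ S, ∀ d ∈ S, a + b = c + d → (a = c ∧ b = d) ∨ (a = d ∧ b = c)

theorem inj_sub {p : ℕ} [Fact p.Prime] (S : Finset (ZMod p × ZMod p)) (hS : Sidon S) :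
    Set.InjOn (fun x : (ZMod p × ZMod p) × (ZMod p × ZMod p) => x.1 - x.2) S.offDiag := by
  rintro ⟨a, b⟩ hab ⟨c, d⟩ hcd h
  rw [mem_coe, mem_offDiag] at hab hcd
  simp only at h hab hcd
  have h1 : a + d = c + b := by
    have : a - b = c - d := h
    rw [sub_eq_sub_iff_add_eq_add] at this
    exact this
  rcases hS a hab.1 d hcd.2.1 c hcd.1 b hab.2.1 h1 with h2 | h2
  · rw [h2.1, h2.2]
  · exact absurd h2.1 hab.2.2

theorem TT_compl {p : ℕ} [Fact p.Prime] (S : Finset (ZMod p × ZMod p)) :
    (TT S)ᶜ = S.offDiag.image (fun x => x.1 - x.2) := by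
  ext x
  rw [mem_compl, mem_TT, mem_image]
  push Not
  constructor
  · rintro ⟨h0, a, ha, b, hb, h⟩
    refine ⟨(a, b), ?_, h⟩
    rw [mem_offDiag]
    refine ⟨ha, hb, fun hab => ?_⟩
    simp only at hab
    rw [hab, sub_self] at h
    exact h0 h.symm
  · rintro ⟨⟨a, b⟩, hab, h⟩
    rw [mem_offDiag] at hab
    simp only at hab h
    refine ⟨?_, a, hab.1, b, hab.2.1, h⟩
    rintro rfl
    exact hab.2.2 (sub_eq_zero.mp h)

theorem card_TT {p : ℕ} [Fact p.Prime] (S : Finset (ZMod p × ZMod p)) (hc : S.card = p)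
    (hS : Sidon S) : (TT S).card = p := by
  have h1 : ((TT S)ᶜ).card = p * p - p := by
    rw [TT_compl, card_image_of_injOn (inj_sub S hS), offDiag_card, hc]
  have h2 := card_add_card_compl (TT S)
  have h3 : Fintype.card (ZMod p × ZMod p) = p * p := by
    rw [Fintype.card_prod, ZMod.card]
  have h4 : p ≤ p * p := Nat.le_mul_self p
  omega

theorem sum_univ_lf {p : ℕ} [Fact p.Prime] (v : ZMod p × ZMod p) (m : ℕ) :
    ∑ x : ZMod p × ZMod p, lf v x ^ m = 0 := by
  rw [Fintype.sum_prod_type]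
  have hp0 : ((p : ℕ) : ZMod p) = 0 := ZMod.natCast_self p
  by_cases hv : v.2 = 0
  · have : ∀ x : ZMod p, ∑ y : ZMod p, lf v (x, y) ^ m = 0 := by
      intro x
      simp only [lf, hv, zero_mul, add_zero, sum_const, card_univ, ZMod.card, nsmul_eq_mul, hp0]
    simp only [this, sum_const_zero]
  · have : ∀ x : ZMod p, ∑ y : ZMod p, lf v (x, y) ^ m = ∑ z : ZMod p, z ^ m := by
      intro x
      refine Fintype.sum_bijective (fun y => v.1 * x + v.2 * y) ?_ _ _ (fun y => rfl)
      constructor
      · intro y z h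
        simp only [add_right_inj] at h
        exact mul_left_cancel₀ hv h
      · intro z
        refine ⟨v.2⁻¹ * (z - v.1 * x), ?_⟩
        simp only
        rw [mul_inv_cancel_left₀ hv]
        ring
    simp only [this, sum_const, card_univ, ZMod.card, nsmul_eq_mul, hp0, zero_mul]

theorem sum_TT {p : ℕ} [Fact p.Prime] (S : Finset (ZMod p × ZMod p)) (hS : Sidon S)
    (v : ZMod p × ZMod p) (m : ℕ) (hm : 1 ≤ m) :
    ∑ t ∈ TT S, lf v t ^ m = - ∑ s ∈ S, ∑ s' ∈ S, (lf v s - lf v s') ^ m := by
  have h1 : ∑ t ∈ TT S, lf v t ^ m + ∑ t ∈ (TT S)ᶜ, lf v t ^ m = 0 := by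
    rw [sum_add_sum_compl, sum_univ_lf v m]
  have h2 : ∑ t ∈ (TT S)ᶜ, lf v t ^ m = ∑ s ∈ S, ∑ s' ∈ S, (lf v s - lf v s') ^ m := by
    rw [TT_compl, sum_image (inj_sub S hS), ← sum_product', ← diag_union_offDiag,
      sum_union (disjoint_diag_offDiag S), sum_diag]
    simp only [sub_self, lf_sub]
    rw [zero_pow (by omega), sum_const_zero, zero_add]
  rw [h2] at h1
  linear_combination h1

/-- the moments in direction `v` -/
def mom {p : ℕ} (S : Finset (ZMod p × ZMod p)) (v : ZMod p × ZMod p) (j : ℕ) : ZMod p :=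
  ∑ s ∈ S, lf v s ^ j

theorem sum_TT' {p : ℕ} [Fact p.Prime] (S : Finset (ZMod p × ZMod p)) (hS : Sidon S)
    (v : ZMod p × ZMod p) (m : ℕ) (hm : 1 ≤ m) :
    ∑ t ∈ TT S, lf v t ^ m =
      - ∑ j ∈ range (m + 1), (-1) ^ (m - j) * (m.choose j : ZMod p) * (mom S v j * mom S v (m - j)) := by
  rw [sum_TT S hS v m hm]
  congr 1
  have h1 : ∀ a b : ZMod p, (a - b) ^ m =
      ∑ j ∈ range (m + 1), (-1) ^ (m - j) * (m.choose j : ZMod p) * (a ^ j * b ^ (m - j)) := by
    intro a b
    rw [sub_eq_add_neg, add_pow]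
    refine sum_congr rfl fun j _ => ?_
    rw [neg_pow b]
    ring
  simp only [h1]
  have h2 : ∀ s ∈ S, ∑ s' ∈ S, ∑ j ∈ range (m + 1), (-1) ^ (m - j) * (m.choose j : ZMod p) *
      (lf v s ^ j * lf v s' ^ (m - j)) = ∑ j ∈ range (m + 1), (-1) ^ (m - j) *
        (m.choose j : ZMod p) * (lf v s ^ j * mom S v (m - j)) := by
    intro s _
    rw [sum_comm]
    refine sum_congr rfl fun j _ => ?_
    rw [mom, mul_sum, mul_sum]
  rw [sum_congr rfl h2, sum_comm]
  refine sum_congr rfl fun j _ => ?_
  rw [← mul_sum, ← sum_mul]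
  rfl

theorem mom_zero {p : ℕ} [Fact p.Prime] (S : Finset (ZMod p × ZMod p)) (hc : S.card = p)
    (v : ZMod p × ZMod p) : mom S v 0 = 0 := by
  simp [mom, hc]

/-- a direction in which the low moments of `S` vanish -/
theorem dir {p : ℕ} [Fact p.Prime] (hp2 : p ≠ 2) (S : Finset (ZMod p × ZMod p))
    (hc : S.card = p) (hS : Sidon S) (v : ZMod p × ZMod p)
    (h : ∀ j, 1 ≤ j → 4 * j ≤ p - 1 → mom S v j = 0) :
    Set.InjOn (lf v) (TT S) ∨ ∀ t ∈ TT S, lf v t = 0 := by
  have hcT := card_TT S hc hS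
  have key : ∀ m, 1 ≤ m → 2 * m ≤ p - 1 → ∑ t : (TT S), lf v t.1 ^ m = 0 := by
    intro m hm hm'
    rw [sum_coe_sort (TT S) (fun t => lf v t ^ m), sum_TT' S hS v m hm]
    rw [neg_eq_zero]
    refine sum_eq_zero fun j hj => ?_
    rw [mem_range] at hj
    have : mom S v j * mom S v (m - j) = 0 := by
      rcases le_total (2 * j) m with h1 | h1
      · rcases Nat.eq_zero_or_pos j with h2 | h2
        · rw [h2, mom_zero S hc v, zero_mul]
        · rw [h j h2 (by omega), zero_mul]
      · rcases Nat.eq_zero_or_pos (m - j) with h2 | h2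
        · rw [h2, mom_zero S hc v, mul_zero]
        · rw [h (m - j) h2 (by omega), mul_zero]
    rw [this, mul_zero]
  have hcard : Fintype.card (TT S) = p := by
    rw [Fintype.card_coe, hcT]
  rcases lac hp2 hcard (fun t : (TT S) => lf v t.1) key with h1 | ⟨c, h1⟩
  · left
    intro x hx y hy hxy
    have := @h1 ⟨x, hx⟩ ⟨y, hy⟩ hxy
    exact congrArg Subtype.val this
  · right
    intro t ht
    have h0 : (0 : ZMod p × ZMod p) ∈ TT S := by
      rw [mem_TT]
      left
      rfl
    have h2 := h1 ⟨0, h0⟩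
    have h3 := h1 ⟨t, ht⟩
    simp only [lf_zero] at h2 h3
    rw [h3, ← h2]

/-- in a direction in which `T` projects bijectively, the first nonzero moment of `S` has large
degree -/
theorem first {p : ℕ} [Fact p.Prime] (S : Finset (ZMod p × ZMod p))
    (hc : S.card = p) (hS : Sidon S) (v : ZMod p × ZMod p) (hv : Set.InjOn (lf v) (TT S))
    (k : ℕ) (hk : 1 ≤ k) (hk' : 4 * k ≤ p - 1)
    (h : ∀ j, 1 ≤ j → j < k → mom S v j = 0) : mom S v k = 0 := by
  by_contra hne
  have hcT := card_TT S hc hS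
  have h1 : ∑ t ∈ TT S, lf v t ^ (2 * k) = 0 := by
    have h2 : (TT S).image (lf v) = univ := by
      apply eq_univ_of_card
      rw [card_image_of_injOn hv, hcT, ZMod.card]
    rw [← sum_image (f := fun z => z ^ (2 * k)) hv, h2]
    have h3 := FiniteField.sum_pow_lt_card_sub_one (K := ZMod p) (2 * k)
      (by rw [ZMod.card]; omega)
    exact h3
  rw [sum_TT' S hS v (2 * k) (by omega), neg_eq_zero, sum_eq_single k] at h1
  · have h2 : 2 * k - k = k := by omega
    rw [h2] at h1
    rcases mul_eq_zero.mp h1 with h3 | h3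
    · rcases mul_eq_zero.mp h3 with h4 | h4
      · exact absurd h4 (pow_ne_zero _ (neg_ne_zero.mpr one_ne_zero))
      · rw [ZMod.natCast_eq_zero_iff] at h4
        have h5 : p ∣ (2 * k).factorial := by
          rw [← Nat.choose_mul_factorial_mul_factorial (show k ≤ 2 * k by omega), mul_assoc]
          exact Dvd.dvd.mul_right h4 _
        rw [(Fact.out : p.Prime).dvd_factorial] at h5
        omega
    · exact hne (mul_self_eq_zero.mp h3)
  · intro j hj hjk
    rw [mem_range] at hj
    have : mom S v j * mom S v (2 * k - j) = 0 := by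
      rcases lt_or_gt_of_ne hjk with h2 | h2
      · rcases Nat.eq_zero_or_pos j with h3 | h3
        · rw [h3, mom_zero S hc v, zero_mul]
        · rw [h j h3 h2, zero_mul]
      · rcases Nat.eq_zero_or_pos (2 * k - j) with h3 | h3
        · rw [h3, mom_zero S hc v, mul_zero]
        · rw [h (2 * k - j) h3 (by omega), mul_zero]
    rw [this, mul_zero]
  · intro h2
    exact absurd (mem_range.mpr (by omega)) h2


/-- the number of nonzero zeros of the binary form `∑ (a s₁ + b s₂) ^ k` -/
theorem zeros {p : ℕ} [Fact p.Prime] (S : Finset (ZMod p × ZMod p)) (k : ℕ) (hk : 1 ≤ k)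
    (v : ZMod p × ZMod p) (hv : mom S v k ≠ 0) :
    (univ.filter fun w : ZMod p × ZMod p => w ≠ 0 ∧ mom S w k = 0).card ≤ k * (p - 1) := by
  classical
  set P : (ZMod p)[X] := ∑ s ∈ S, (C s.1 + C s.2 * X) ^ k with hP
  have hPe : ∀ c, P.eval c = mom S (1, c) k := by
    intro c
    rw [hP, eval_finsetSum, mom]
    refine sum_congr rfl fun s _ => ?_
    simp only [lf, eval_pow, eval_add, eval_C, eval_mul, eval_X, one_mul]
    ring
  have hscale : ∀ a c, mom S (a, a * c) k = a ^ k * mom S (1, c) k := by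
    intro a c
    rw [mom, mom, mul_sum]
    refine sum_congr rfl fun s _ => ?_
    rw [← mul_pow]
    congr 1
    simp only [lf]
    ring
  have hscale' : ∀ b, mom S (0, b) k = b ^ k * mom S (0, 1) k := by
    intro b
    rw [mom, mom, mul_sum]
    refine sum_congr rfl fun s _ => ?_
    rw [← mul_pow]
    congr 1
    simp only [lf]
    ring
  have hlin : ∀ s : ZMod p × ZMod p, (C s.1 + C s.2 * X : (ZMod p)[X]).natDegree ≤ 1 := by
    intro s
    refine le_trans (natDegree_add_le _ _) ?_
    rw [natDegree_C]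
    exact max_le (by omega) (le_trans (natDegree_C_mul_le _ _) natDegree_X_le)
  have hPd : P.natDegree ≤ k := by
    rw [hP]
    refine natDegree_sum_le_of_forall_le _ _ fun s _ => ?_
    refine le_trans natDegree_pow_le ?_
    calc k * _ ≤ k * 1 := Nat.mul_le_mul_left k (hlin s)
      _ = k := mul_one k
  have hPk : P.coeff k = mom S (0, 1) k := by
    rw [hP, finsetSum_coeff, mom]
    refine sum_congr rfl fun s _ => ?_
    have h1 := coeff_pow_of_natDegree_le (hlin s) (m := k)
    rw [mul_one] at h1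
    rw [h1]
    simp [lf]
  have hP0 : P ≠ 0 := by
    intro h0
    apply hv
    by_cases ha : v.1 = 0
    · have : v = (0, v.2) := by
        ext
        · exact ha
        · rfl
      rw [this, hscale', ← hPk, h0, coeff_zero, mul_zero]
    · have : v = (v.1, v.1 * (v.1⁻¹ * v.2)) := by
        rw [mul_inv_cancel_left₀ ha]
      rw [this, hscale, ← hPe, h0, eval_zero, mul_zero]
  set A : Finset (ZMod p × ZMod p) :=
    (((univ : Finset (ZMod p)).erase 0) ×ˢ P.roots.toFinset).image (fun x => (x.1, x.1 * x.2))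
    with hA
  set B : Finset (ZMod p × ZMod p) :=
    if mom S (0, 1) k = 0 then ((univ : Finset (ZMod p)).erase 0).image (fun b => (0, b)) else ∅
    with hB
  have hsub : (univ.filter fun w : ZMod p × ZMod p => w ≠ 0 ∧ mom S w k = 0) ⊆ A ∪ B := by
    intro w hw
    rw [mem_filter] at hw
    rw [mem_union]
    by_cases ha : w.1 = 0
    · right
      have h1 : w = (0, w.2) := by
        ext
        · exact ha
        · rfl
      have h2 : w.2 ≠ 0 := by
        intro h3
        apply hw.2.1
        rw [h1, h3]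
        rfl
      have h3 : mom S (0, 1) k = 0 := by
        have h4 := hw.2.2
        rw [h1, hscale'] at h4
        rcases mul_eq_zero.mp h4 with h5 | h5
        · exact absurd h5 (pow_ne_zero _ h2)
        · exact h5
      rw [hB, if_pos h3, mem_image]
      exact ⟨w.2, mem_erase.mpr ⟨h2, mem_univ _⟩, h1.symm⟩
    · left
      rw [hA, mem_image]
      refine ⟨(w.1, w.1⁻¹ * w.2), ?_, ?_⟩
      · rw [mem_product]
        refine ⟨mem_erase.mpr ⟨ha, mem_univ _⟩, ?_⟩
        rw [Multiset.mem_toFinset, mem_roots hP0, IsRoot.def, hPe]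
        have h1 : w = (w.1, w.1 * (w.1⁻¹ * w.2)) := by
          rw [mul_inv_cancel_left₀ ha]
        have h4 := hw.2.2
        rw [h1, hscale] at h4
        rcases mul_eq_zero.mp h4 with h5 | h5
        · exact absurd h5 (pow_ne_zero _ ha)
        · exact h5
      · simp only
        rw [mul_inv_cancel_left₀ ha]
  have he : ((univ : Finset (ZMod p)).erase 0).card = p - 1 := by
    rw [card_erase_of_mem (mem_univ _), card_univ, ZMod.card]
  have hAc : A.card ≤ (p - 1) * P.natDegree := by
    refine le_trans card_image_le ?_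
    rw [card_product, he]
    refine Nat.mul_le_mul_left _ ?_
    exact le_trans (Multiset.toFinset_card_le _) (card_roots' P)
  have h1 := card_le_card hsub
  have h2 := card_union_le A B
  by_cases h0 : mom S (0, 1) k = 0
  · have hBc : B.card ≤ p - 1 := by
      rw [hB, if_pos h0]
      exact le_trans card_image_le (le_of_eq he)
    have h3 : P.natDegree ≤ k - 1 := by
      rw [h0] at hPk
      rcases Nat.lt_or_ge P.natDegree k with h4 | h4
      · omega
      · exfalso
        have h5 : P.natDegree = k := le_antisymm hPd h4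
        have h6 : P.leadingCoeff = 0 := by
          rw [leadingCoeff, h5, hPk]
        exact hP0 (leadingCoeff_eq_zero.mp h6)
    obtain ⟨n, rfl⟩ : ∃ n, k = n + 1 := ⟨k - 1, by omega⟩
    have h4 : (p - 1) * P.natDegree ≤ (p - 1) * n := Nat.mul_le_mul_left _ (by omega)
    calc _ ≤ A.card + B.card := le_trans h1 h2
      _ ≤ (p - 1) * n + (p - 1) := by omega
      _ = (n + 1) * (p - 1) := by ring
  · have hBc : B.card = 0 := by
      rw [hB, if_neg h0, card_empty]
    have h4 : (p - 1) * P.natDegree ≤ (p - 1) * k := Nat.mul_le_mul_left _ hPd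
    calc _ ≤ A.card + B.card := le_trans h1 h2
      _ ≤ (p - 1) * k := by omega
      _ = k * (p - 1) := by ring

/-- some monomial moment of degree `k` is nonzero -/
theorem mono {p : ℕ} [Fact p.Prime] (S : Finset (ZMod p × ZMod p)) (k : ℕ)
    (v : ZMod p × ZMod p) (hv : mom S v k ≠ 0) :
    ∃ i j, i + j = k ∧ ∑ s ∈ S, s.1 ^ i * s.2 ^ j ≠ 0 := by
  by_contra hcon
  push Not at hcon
  apply hv
  rw [mom]
  have h1 : ∀ s ∈ S, lf v s ^ k = ∑ i ∈ range (k + 1),
      (v.1 ^ i * v.2 ^ (k - i) * (k.choose i : ZMod p)) * (s.1 ^ i * s.2 ^ (k - i)) := by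
    intro s _
    rw [lf, add_pow]
    refine sum_congr rfl fun i _ => ?_
    rw [mul_pow, mul_pow]
    ring
  rw [sum_congr rfl h1, sum_comm]
  refine sum_eq_zero fun i hi => ?_
  rw [mem_range] at hi
  rw [← mul_sum, hcon i (k - i) (by omega), mul_zero]

/-- if the form of degree `j < p` vanishes everywhere then so do the monomial moments -/
theorem mono' {p : ℕ} [Fact p.Prime] (S : Finset (ZMod p × ZMod p)) (i j : ℕ) (hij : i + j < p)
    (h : ∀ w, mom S w (i + j) = 0) : ∑ s ∈ S, s.1 ^ i * s.2 ^ j = 0 := by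
  have hp := (Fact.out : p.Prime)
  set n := i + j with hn
  set P : (ZMod p)[X] := ∑ a ∈ range (n + 1),
    C ((n.choose a : ZMod p) * ∑ s ∈ S, s.1 ^ a * s.2 ^ (n - a)) * X ^ a with hP
  have he : ∀ c, P.eval c = 0 := by
    intro c
    rw [← h (c, 1), hP, eval_finsetSum, mom]
    have h1 : ∀ s ∈ S, lf (c, 1) s ^ n = ∑ a ∈ range (n + 1),
        (c ^ a * (n.choose a : ZMod p)) * (s.1 ^ a * s.2 ^ (n - a)) := by
      intro s _
      rw [lf, add_pow]
      refine sum_congr rfl fun a _ => ?_
      rw [mul_pow, one_mul]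
      ring
    rw [sum_congr rfl h1, sum_comm]
    refine sum_congr rfl fun a _ => ?_
    rw [← mul_sum]
    simp only [eval_mul, eval_C, eval_pow, eval_X]
    ring
  have hd : P.natDegree < p := by
    refine lt_of_le_of_lt ?_ hij
    rw [hP]
    refine natDegree_sum_le_of_forall_le _ _ fun a ha => ?_
    rw [mem_range] at ha
    exact le_trans (natDegree_C_mul_X_pow_le _ _) (by omega)
  have hP0 : P = 0 := by
    by_contra hne
    have h1 : (univ : Finset (ZMod p)).val ≤ P.roots := by
      rw [Multiset.le_iff_subset univ.nodup]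
      intro c _
      rw [mem_roots hne]
      exact he c
    have h2 := Multiset.card_le_card h1
    have h3 := card_roots' P
    have h4 : (univ : Finset (ZMod p)).val.card = p := by
      change (univ : Finset (ZMod p)).card = p
      rw [card_univ, ZMod.card]
    omega
  have h1 : P.coeff i = (n.choose i : ZMod p) * ∑ s ∈ S, s.1 ^ i * s.2 ^ (n - i) := by
    rw [hP, finsetSum_coeff]
    simp only [coeff_C_mul_X_pow]
    rw [sum_ite_eq, if_pos (mem_range.mpr (by omega))]
  rw [hP0, coeff_zero] at h1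
  have h2 : n - i = j := by omega
  rw [h2] at h1
  rcases mul_eq_zero.mp h1.symm with h3 | h3
  · exfalso
    rw [ZMod.natCast_eq_zero_iff] at h3
    have h5 : p ∣ n.factorial := by
      rw [← Nat.choose_mul_factorial_mul_factorial (show i ≤ n by omega), mul_assoc]
      exact Dvd.dvd.mul_right h3 _
    rw [hp.dvd_factorial] at h5
    omega
  · exact h3

theorem two_add : ∀ x : ZMod 2 × ZMod 2, x + x = 0 := by decide

theorem main {p : ℕ} [Fact p.Prime] (S : Finset (ZMod p × ZMod p)) (hc : S.card = p)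
    (hS : Sidon S) :
    (∃ H : AddSubgroup (ZMod p × ZMod p), ∀ x, x ∈ H ↔ x ∈ TT S) ∨
    ∃ k : ℕ, 1 ≤ k ∧ 4 * k ≤ p - 1 ∧ (∃ i j, i + j = k ∧ ∑ s ∈ S, s.1 ^ i * s.2 ^ j ≠ 0) ∧
      (∀ i j, 1 ≤ i + j → i + j < k → ∑ s ∈ S, s.1 ^ i * s.2 ^ j = 0) ∧
      (univ.filter fun w : ZMod p × ZMod p => w ≠ 0 ∧ Set.InjOn (lf w) (TT S)).card
        ≤ k * (p - 1) := by
  classical
  have hp := (Fact.out : p.Prime)
  by_cases hp2 : p = 2
  · exfalso
    subst hp2
    obtain ⟨a, ha, b, hb, hab⟩ := one_lt_card.mp (show 1 < S.card by omega)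
    rcases hS a ha a ha b hb b hb (by rw [two_add, two_add]) with h | h
    · exact hab h.1
    · exact hab h.1
  by_cases hsub : ∃ H : AddSubgroup (ZMod p × ZMod p), ∀ x, x ∈ H ↔ x ∈ TT S
  · left
    exact hsub
  right
  have hcT := card_TT S hc hS
  have h0T : (0 : ZMod p × ZMod p) ∈ TT S := by
    rw [mem_TT]
    left
    rfl
  obtain ⟨t, ht, ht0⟩ : ∃ t ∈ TT S, t ≠ 0 :=
    exists_mem_ne (show 1 < (TT S).card by rw [hcT]; exact hp.one_lt) 0
  set v : ZMod p × ZMod p := (-t.2, t.1) with hv
  have hvt : lf v t = 0 := by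
    simp only [lf, hv]
    ring
  have hninj : ¬ Set.InjOn (lf v) (TT S) := by
    intro h
    exact ht0 (h ht h0T (by rw [hvt, lf_zero]))
  have hnz : ¬ ∀ x ∈ TT S, lf v x = 0 := by
    intro h
    apply hsub
    set K : Finset (ZMod p × ZMod p) := univ.filter fun x => lf v x = 0 with hK
    have h1 : TT S ⊆ K := by
      intro x hx
      rw [hK, mem_filter]
      exact ⟨mem_univ _, h x hx⟩
    have h2 : K ⊆ (univ : Finset (ZMod p)).image (fun c => (c * t.1, c * t.2)) := by
      intro x hx
      rw [hK, mem_filter] at hx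
      have h3 : -t.2 * x.1 + t.1 * x.2 = 0 := hx.2
      rw [mem_image]
      by_cases h4 : t.1 = 0
      · have h5 : t.2 ≠ 0 := by
          intro h6
          apply ht0
          ext
          · exact h4
          · exact h6
        refine ⟨x.2 * t.2⁻¹, mem_univ _, ?_⟩
        rw [h4] at h3 ⊢
        have h6 : x.1 = 0 := by
          have : t.2 * x.1 = 0 := by linear_combination -h3
          rcases mul_eq_zero.mp this with h7 | h7
          · exact absurd h7 h5
          · exact h7
        ext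
        · simp [h6]
        · simp only
          rw [inv_mul_cancel_right₀ h5]
      · refine ⟨x.1 * t.1⁻¹, mem_univ _, ?_⟩
        ext
        · simp only
          rw [inv_mul_cancel_right₀ h4]
        · simp only
          have : x.2 = t.1⁻¹ * (t.2 * x.1) := by
            rw [eq_inv_mul_iff_mul_eq₀ h4]
            linear_combination h3
          rw [this]
          ring
    have h3 : K.card ≤ (TT S).card := by
      rw [hcT]
      refine le_trans (card_le_card h2) (le_trans card_image_le ?_)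
      rw [card_univ, ZMod.card]
    have h4 : TT S = K := eq_of_subset_of_card_le h1 h3
    refine ⟨{ carrier := {x | lf v x = 0}
              add_mem' := ?_
              zero_mem' := lf_zero v
              neg_mem' := ?_ }, ?_⟩
    · intro a b ha hb
      have ha' : lf v a = 0 := ha
      have hb' : lf v b = 0 := hb
      change lf v (a + b) = 0
      simp only [lf, Prod.fst_add, Prod.snd_add] at ha' hb' ⊢
      linear_combination ha' + hb'
    · intro a ha
      have ha' : lf v a = 0 := ha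
      change lf v (-a) = 0
      simp only [lf, Prod.fst_neg, Prod.snd_neg] at ha' ⊢
      linear_combination -ha'
    · intro x
      rw [h4, hK, mem_filter]
      change lf v x = 0 ↔ _
      simp
  obtain ⟨j, hj1, hj2, hj3⟩ : ∃ j, 1 ≤ j ∧ 4 * j ≤ p - 1 ∧ mom S v j ≠ 0 := by
    by_contra hcon
    push Not at hcon
    rcases dir hp2 S hc hS v hcon with h | h
    · exact hninj h
    · exact hnz h
  have hex : ∃ j, 1 ≤ j ∧ ∃ w, mom S w j ≠ 0 := ⟨j, hj1, v, hj3⟩
  set k := Nat.find hex with hk
  have hk1 : 1 ≤ k := (Nat.find_spec hex).1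
  obtain ⟨w, hw⟩ := (Nat.find_spec hex).2
  have hkj : k ≤ j := Nat.find_min' hex ⟨hj1, v, hj3⟩
  have hmin : ∀ i, 1 ≤ i → i < k → ∀ u, mom S u i = 0 := by
    intro i hi hik u
    by_contra hne
    exact Nat.find_min hex hik ⟨hi, u, hne⟩
  refine ⟨k, hk1, by omega, mono S k w hw, ?_, ?_⟩
  · intro a b hab hab'
    have := hp.two_le
    exact mono' S a b (by omega) (hmin (a + b) hab hab')
  · refine le_trans (card_le_card ?_) (zeros S k hk1 w hw)
    intro u hu
    rw [mem_filter] at hu ⊢
    refine ⟨mem_univ _, hu.2.1, ?_⟩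
    exact first S hc hS u hu.2.2 k hk1 (by omega) (fun i hi hik => hmin i hi hik u)

end Pool.Agent.TH784.SD
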